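import Pool.Agent.NG5c.Tab
import Pool.Agent.NG5c.Ng.D07

set_option autoImplicit false
set_option maxRecDepth 100000

namespace Pool.Agent.NG5c

noncomputable def n13R : T6 (Nat × Nat) :=
 ((((((mk 0x15001404130312021101 0x1000,mk 0x15001408130712061005 0x1100),(mk 0x1500140c130b110a1009 0x1200,mk 0x15001410120f110e100d 0x1300)),((mk 0x15001314121311121011 0x1400,mk 0x15011418131712161115 0x1000),(mk 0x1501141c131b121a1019 0x1100,mk 0x15011420131f111e101d 0x1200))),(((mk 0x15011424122311221021 0x1300,mk 0x15011328122711261025 0x1400),(mk 0x1502142c132b122a1129 0x1000,mk 0x15021430132f122e102d 0x1100)),((mk 0x15021434133311321031 0x1200,mk 0x15021438123711361035 0x1300),(mk 0x1502133c123b113a1039 0x1400,mk 0x15031440133f123e113d 0x1000)))),((((mk 0x15031444134312421041 0x1100,mk 0x15031448134711461045 0x1200),(mk 0x1503144c124b114a1049 0x1300,mk 0x15031350124f114e104d 0x1400)),((mk 0x15041454135312521151 0x1000,mk 0x15041458135712561055 0x1100),(mk 0x1504145c135b115a1059 0x1200,mk 0x15041460125f115e105d 0x1300))),(((mk 0x15041364126311621061 0x1400,mk 0 0),(mk 0 0,mk 0x15011000 0x15001200)),((mk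 0x15021000 0x15001300,mk 0x15031100 0x15001400),(mk 0x15001200 0x15011000,mk 0x150013861083 0x15011100))))),(((((mk 0 0,mk 0x15021200 0x15011300),(mk 0x150313861083 0x15011400,mk 0x15001300 0x15021000)),((mk 0x1500129e109c 0x15021100,mk 0x15011300 0x15021200),(mk 0 0,mk 0x1503129e109c 0x15021400))),(((mk 0x150011b1 0x15031000,mk 0x15001400 0x15031100),(mk 0x150111b1 0x15031200,mk 0x150211b1 0x15031300)),((mk 0 0,mk 0x150014cd11ca 0x15041000),(mk 0x150013d112d010ce 0x15041100,mk 0x150114cd11ca 0x15041200)))),((((mk 0x150214cd11ca 0x15041300,mk 0x150313d112d010ce 0x15041400),(cst1 (mk 0 0))),(cst2 (mk 0 0))),(cst3 (mk 0 0)))))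

noncomputable section

def n13A : T5 At :=
 (((((ma 0x10b1 0x10ca,ma 0x100010b1 0x10ca),(ma 0x10cd 0,ma 0x1061 0)),((ma 0x100010ca1062 0x10b1,ma 0x10ca1062 0x10b1),(ma 0x1063 0,ma 0x1064 0))),(((ma 0x10cd 0x1000,ma 0x10001055 0x1061),(ma 0x10001056 0x1063,ma 0x10001057 0x1064)),((ma 0x20001058 0x10cd,ma 0x10cd1058 0),(ma 0x1055 0,ma 0x10001062 0x10b1)))),((((ma 0x1057 0x1064,ma 0x10001058 0x10cd),(ma 0x1055 0x1061,ma 0x1056 0x1063)),(cst2 (ma 0 0))),(cst3 (ma 0 0))))

def n13L1 : List Nat := [0x150008]
def n13S1 : List Nat := [0x130001000000a800100003c100221003a1002f1001c06a158055113009a002900a5000400130001003b000100a000140003c1003810035100321003b0003c10038058155b4a009b00300085000400130001003700010080001400100001002c0037000200980018100371002c02008100100095000400100001003400010090001410026100340200810010008d00040010000100310001008800140003c100311001f1002f1001c06b15805511b008200290075000400100001002e000100700014000e0001000e002e0002008000181002e1000e0200710010007d0004000e0001002b000100780014100280003c0003c0003c1002b06d1690550230072002900650004000e00010029000100600014000c0001001900290002007000181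0019100290200610010006d0004000c0001002500010068001410025100221001f1000e1001c16d06815805512c0062002c005d0004000c00010023000100580014000b0001001700230002006000181002310017020059001000550004000b00010020000100500014000a00010014002000020058001810020100140200510010000d0004000a0001001d00010008001400010001000b001d0002005000181001d1000b0200090010004d000400010001001a0001004800141001a1001710014100111000b16d068158103000a00290045000400010001001600010040001410007100160003c0003c0003c07005801a000a0026003d0004000100010013000100380014100070003c100130003c0003c06f058012000a0026003500040001000100100001003000141000e100100200090010002d000400010001000d000100280014100070003c0003c1000d0003c06d168058023000a00290025000400010001000a000100200014100070003c0003c0003c1000a06d05800a000a0026001d0004000100010008000100180014100080003c0003c100040003c16d06812a000a00260015000400010001000500010010001410001100050200090010000500040003c0003c0003c100020003c06d16816200020026]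

end

theorem n13t1 : run10 (sel5 n13A) (sel6 n13R) eNG 60 fbNG zAll [] n13S1 n13L1 = true := by decide +kernel

end Pool.Agent.NG5c
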