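import Pool.Agent.NG5c.Tab
import Pool.Agent.NG5c.Ng.D13

set_option autoImplicit false
set_option maxRecDepth 100000

namespace Pool.Agent.NG5c

noncomputable def n05R : T6 (Nat × Nat) :=
 ((((((mk 0x15001404130312021101 0x1000,mk 0x15001408130712061005 0x1100),(mk 0x1500140c130b110a1009 0x1200,mk 0x15001410120f110e100d 0x1300)),((mk 0x15001314121311121011 0x1400,mk 0x15011418131712161115 0x1000),(mk 0x1501141c131b121a1019 0x1100,mk 0x15011420131f111e101d 0x1200))),(((mk 0x15011424122311221021 0x1300,mk 0x15011328122711261025 0x1400),(mk 0x1502142c132b122a1129 0x1000,mk 0x15021430132f122e102d 0x1100)),((mk 0x15021434133311321031 0x1200,mk 0x15021438123711361035 0x1300),(mk 0x1502133c123b113a1039 0x1400,mk 0x15031440133f123e113d 0x1000)))),((((mk 0x15031444134312421041 0x1100,mk 0x15031448134711461045 0x1200),(mk 0x1503144c124b114a1049 0x1300,mk 0x15031350124f114e104d 0x1400)),((mk 0x15041454135312521151 0x1000,mk 0x15041458135712561055 0x1100),(mk 0x1504145c135b115a1059 0x1200,mk 0x15041460125f115e105d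 0x1300))),(((mk 0x15041364126311621061 0x1400,mk 0 0),(mk 0 0,mk 0 0)),((mk 0x1501 0x15001300,mk 0x1502 0x15001400),(mk 0x150014821280117f 0x15011000,mk 0x1500148712851083 0x15011100))))),(((((mk 0x1500148c11891088 0x15011200,mk 0 0),(mk 0x15021300 0x15011400,mk 0x1500139a12991198 0x15021000)),((mk 0x1500139f129e109c 0x15021100,mk 0x150013a411a210a1 0x15021200),(mk 0x15011400 0x15021300,mk 0 0))),(((mk 0x150014b413b312b211b1 0x15031000,mk 0x150014b913b812b710b5 0x15031100),(mk 0x150014be13bd11bb10ba 0x15031200,mk 0x150112c111c010bf 0x15031300)),((mk 0x150212c111c010bf 0x15031400,mk 0x150014cd13cc12cb11ca 0x15041000),(mk 0x150014d213d112d010ce 0x15041100,mk 0x150014d713d611d410d3 0x15041200)))),((((mk 0x150112da11d910d8 0x15041300,mk 0x150212da11d910d8 0x15041400),(cst1 (mk 0 0))),(cst2 (mk 0 0))),(cst3 (mk 0 0)))))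

noncomputable section

def n05A : T1 At :=
 (ma 0 0,ma 0 0)

def n05L1 : List Nat := [0x8]
def n05S1 : List Nat := [0x30000300003000030000315c08900020023]

end

theorem n05t1 : run10 (sel1 n05A) (sel6 n05R) eNG 3 fbNG zAll [] n05S1 n05L1 = true := by decide +kernel

end Pool.Agent.NG5c
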