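import Pool.Agent.NG5c.Tab
import Pool.Agent.NG5c.Ng.D09

set_option autoImplicit false
set_option maxRecDepth 100000

namespace Pool.Agent.NG5c

noncomputable def n22R : T6 (Nat × Nat) :=
 ((((((mk 0x15001404130312021101 0x1000,mk 0x15001408130712061005 0x1100),(mk 0x1500140c130b110a1009 0x1200,mk 0x15001410120f110e100d 0x1300)),((mk 0x15001314121311121011 0x1400,mk 0x15011418131712161115 0x1000),(mk 0x1501141c131b121a1019 0x1100,mk 0x15011420131f111e101d 0x1200))),(((mk 0x15011424122311221021 0x1300,mk 0x15011328122711261025 0x1400),(mk 0x1502142c132b122a1129 0x1000,mk 0x15021430132f122e102d 0x1100)),((mk 0x15021434133311321031 0x1200,mk 0x15021438123711361035 0x1300),(mk 0x1502133c123b113a1039 0x1400,mk 0x15031440133f123e113d 0x1000)))),((((mk 0x15031444134312421041 0x1100,mk 0x15031448134711461045 0x1200),(mk 0x1503144c124b114a1049 0x1300,mk 0x15031350124f114e104d 0x1400)),((mk 0x15041454135312521151 0x1000,mk 0x15041458135712561055 0x1100),(mk 0x1504145c135b115a1059 0x1200,mk 0x15041460125f115e105d 0x1300))),(((mk 0x15041364126311621061 0x1400,mk 0 0),(mk 0x15011000 0x15001100,mk 0x15021000 0x15001200)),((mk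 0x1503147812761175 0x15001300,mk 0x1504137c127b117a 0x15001400),(mk 0x15001100 0x15011000,mk 0 0))))),(((((mk 0x15021100 0x15011200,mk 0x15031491128f108d 0x15011300),(mk 0x1504139512941092 0x15011400,mk 0x15001200 0x15021000)),((mk 0x15011200 0x15021100,mk 0 0),(mk 0x150314aa11a710a6 0x15021300,mk 0x150413ae11ac10ab 0x15021400))),(((mk 0x150014b4 0x15031000,mk 0x150114b4 0x15031100),(mk 0x150214b4 0x15031200,mk 0 0)),((mk 0x150412c611c510c4 0x15031400,mk 0x150013cc 0x15041000),(mk 0x150113cc 0x15041100,mk 0x150213cc 0x15041200)))),((((mk 0x150312da11d910d8 0x15041300,mk 0 0),(cst1 (mk 0 0))),(cst2 (mk 0 0))),(cst3 (mk 0 0)))))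

noncomputable section

def n22A : T5 At :=
 (((((ma 0x1001 0,ma 0x1001 0x100e),(ma 0x1002 0,ma 0x1002 0x100f)),((ma 0x10001003 0x10cc,ma 0x1004 0x1010),(ma 0x10001004 0x10b4,ma 0x1004 0x10b4))),(((ma 0x1003 0,ma 0x1004 0),(ma 0x10d810c4 0,ma 0x10d910c5 0)),((ma 0x10d9 0,ma 0x10d8 0),(ma 0x10da 0,ma 0x10c5 0)))),((((ma 0x10001092 0x10c4,ma 0x10001094 0x10c6),(ma 0x10da10c6 0,ma 0 0)),(cst2 (ma 0 0))),(cst3 (ma 0 0))))

def n22L1 : List Nat := [0x140008]
def n22S1 : List Nat := [0x110001000000a0001010038100351002b0300890015009d00040011000100370001009800141003700039000391001c1001900039000390003907006c012008b0035009500040011000100340001009000140003900039100341002f1003116c0620a2008a0026008500040011000100320001008000140010000100200032000200880018100201003202008100100075000400100001002e000100700014000e00010023002e000200800018100231002e0200710010007d0004000e0001002c00010078001400039000391002c100261002917012900720023006d0004000e00010028000100680014000d0001002000280002007000181002010028020069001000550004000d00010025000100500014000a0001002300250002006800181002310025020051001000650004000a00010022000100600014100220003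91001c1001900039000390003907006c00a00530030005d0004000a0001001f0001005800141001f1001c1001900039000390003907006c0020053002b003d0004000a0001001d000100380014000700010010001d000200500018100101001d0200390010004d000400070001001a000100480014100171001a100081000200039068140102003a00260045000400070001001600010040001410014100160200390010002d00041001300039000390003900039168040022002a00260035000400050001001100010030001400039100111000e1000b1000500039043140b42002b002b001d0004000391000d00039000390003916d04002a001a00260025000400030001000a000100200014000d0004000390003910007000390003905b04001a000a0026000100010008000a0002001800181000a1000802000900100015000400010001000400010010001400050004000390003900039100010003905a04001200020026000000010002000400020008001810004100020200010010]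

end

theorem n22t1 : run10 (sel5 n22A) (sel6 n22R) eNG 57 fbNG zAll [] n22S1 n22L1 = true := by decide +kernel

end Pool.Agent.NG5c
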