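import Pool.Agent.NG5c.Tab
import Pool.Agent.NG5c.Ng.D22

set_option autoImplicit false
set_option maxRecDepth 100000

namespace Pool.Agent.NG5c

noncomputable def n18R : T6 (Nat × Nat) :=
 ((((((mk 0x15001404130312021101 0x1000,mk 0x15001408130712061005 0x1100),(mk 0x1500140c130b110a1009 0x1200,mk 0x15001410120f110e100d 0x1300)),((mk 0x15001314121311121011 0x1400,mk 0x15011418131712161115 0x1000),(mk 0x1501141c131b121a1019 0x1100,mk 0x15011420131f111e101d 0x1200))),(((mk 0x15011424122311221021 0x1300,mk 0x15011328122711261025 0x1400),(mk 0x1502142c132b122a1129 0x1000,mk 0x15021430132f122e102d 0x1100)),((mk 0x15021434133311321031 0x1200,mk 0x15021438123711361035 0x1300),(mk 0x1502133c123b113a1039 0x1400,mk 0x15031440133f123e113d 0x1000)))),((((mk 0x15031444134312421041 0x1100,mk 0x15031448134711461045 0x1200),(mk 0x1503144c124b114a1049 0x1300,mk 0x15031350124f114e104d 0x1400)),((mk 0x15041454135312521151 0x1000,mk 0x15041458135712561055 0x1100),(mk 0x1504145c135b115a1059 0x1200,mk 0x15041460125f115e105d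 0x1300))),(((mk 0x15041364126311621061 0x1400,mk 0 0),(mk 0 0,mk 0x1501 0x15001200)),((mk 0x1502 0x15001300,mk 0x1503 0x15001400),(mk 0x150014821381117f 0x15011000,mk 0x1500148713861083 0x15011100))))),(((((mk 0 0,mk 0x15021200 0x15011300),(mk 0x15031200 0x15011400,mk 0x1500149b12991198 0x15021000)),((mk 0x150014a0129e109c 0x15021100,mk 0x15011300 0x15021200),(mk 0 0,mk 0x15031300 0x15021400))),(((mk 0x150013b312b211b1 0x15031000,mk 0x150013b812b710b5 0x15031100),(mk 0x15011400 0x15031200,mk 0x15021400 0x15031300)),((mk 0 0,mk 0x150014cd13cc12cb11ca 0x15041000),(mk 0x150014d213d112d010ce 0x15041100,mk 0x150111d410d3 0x15041200)))),((((mk 0x150211d410d3 0x15041300,mk 0x150311d410d3 0x15041400),(cst1 (mk 0 0))),(cst2 (mk 0 0))),(cst3 (mk 0 0)))))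

noncomputable section

def n18A : T1 At :=
 (ma 0 0,ma 0 0)

def n18L1 : List Nat := [0x8]
def n18S1 : List Nat := [0x30000300003000030000315b08900020023]

end

theorem n18t1 : run10 (sel1 n18A) (sel6 n18R) eNG 3 fbNG zAll [] n18S1 n18L1 = true := by decide +kernel

end Pool.Agent.NG5c
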