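import Pool.Agent.NG5c.Tab
import Pool.Agent.NG5c.Ng.D08

set_option autoImplicit false
set_option maxRecDepth 100000

namespace Pool.Agent.NG5c

noncomputable def n21R : T6 (Nat × Nat) :=
 ((((((mk 0x15001404130312021101 0x1000,mk 0x15001408130712061005 0x1100),(mk 0x1500140c130b110a1009 0x1200,mk 0x15001410120f110e100d 0x1300)),((mk 0x15001314121311121011 0x1400,mk 0x15011418131712161115 0x1000),(mk 0x1501141c131b121a1019 0x1100,mk 0x15011420131f111e101d 0x1200))),(((mk 0x15011424122311221021 0x1300,mk 0x15011328122711261025 0x1400),(mk 0x1502142c132b122a1129 0x1000,mk 0x15021430132f122e102d 0x1100)),((mk 0x15021434133311321031 0x1200,mk 0x15021438123711361035 0x1300),(mk 0x1502133c123b113a1039 0x1400,mk 0x15031440133f123e113d 0x1000)))),((((mk 0x15031444134312421041 0x1100,mk 0x15031448134711461045 0x1200),(mk 0x1503144c124b114a1049 0x1300,mk 0x15031350124f114e104d 0x1400)),((mk 0x15041454135312521151 0x1000,mk 0x15041458135712561055 0x1100),(mk 0x1504145c135b115a1059 0x1200,mk 0x15041460125f115e105d 0x1300))),(((mk 0x15041364126311621061 0x1400,mk 0 0),(mk 0x15011000 0x15001100,mk 0x15021000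 0x15001200)),((mk 0x150312761175 0x15001300,mk 0x150412761175 0x15001400),(mk 0x15001100 0x15011000,mk 0 0))))),(((((mk 0x15021100 0x15011200,mk 0x1503128f108d 0x15011300),(mk 0x1504128f108d 0x15011400,mk 0x15001200 0x15021000)),((mk 0x15011200 0x15021100,mk 0 0),(mk 0x150311a710a6 0x15021300,mk 0x150411a710a6 0x15021400))),(((mk 0x150014b4 0x15031000,mk 0x150114b4 0x15031100),(mk 0x150214b4 0x15031200,mk 0 0)),((mk 0x15041300 0x15031400,mk 0x150013cc 0x15041000),(mk 0x150113cc 0x15041100,mk 0x150213cc 0x15041200)))),((((mk 0x15031400 0x15041300,mk 0 0),(cst1 (mk 0 0))),(cst2 (mk 0 0))),(cst3 (mk 0 0)))))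

noncomputable section

def n21A : T4 At :=
 ((((ma 0x10b4 0,ma 0x104d 0),(ma 0x104e 0,ma 0x104f 0)),((ma 0x1000104a 0x104e,ma 0x1000104b 0x104f),(ma 0x1049 0,ma 0x1049 0x104d))),(((ma 0x10001050 0x10cc,ma 0x104b 0x1076),(ma 0x104b 0x104f,ma 0x10001049 0x104d)),((ma 0x104a 0x104e,ma 0x104a 0x1075),(ma 0x104c 0,ma 0 0))))

def n21L1 : List Nat := [0x100008]
def n21S1 : List Nat := [0xa00010000008000100002d1001a1001f1000d1002206f15305215b0052002900750004000a00010020000100700014007d0004000e0001001d0001007800141002c0002d1001d100291001405c15204200720026006d00041002b0002d0002d0002d0002d06c05202a006a0026005d0004000d00010028000100580014000b000100260008002800030068001c100261002810008030059001500650004000b0001002500010060001410025100220002d1001a100101000d10022153052b4a005b0030003d0004000b0001002300010038001400070001000500230002005800181002310005020039001000070001000b001c002000030050001c100201001c1000b030039001500350004000700010013000100300014004d00040006000100160001004800140002d1001a100101000d1001606d15305214b003200290045000400060001001900010040001410001100190002d0002d0002d16d06805302b003200290006000100050017001300030038001c1001710005100130300310015002d000400060001001100010028001400050001000b0011000200300018100111000b0200290010000d000400050001000e000100080014000100010008000e0002002800181000e1000802000900100025000400010001000a000100200014100010002d1000a0002d0002d06a05301a000a0026001d0004000100010007000100180014100010002d0002d100070002d069053012000a002600150004000100010004000100100014100010002d0002d0002d1000406805300a000a002600050004100020002d0002d0002d0002d16806100020023]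

end

theorem n21t1 : run10 (sel4 n21A) (sel6 n21R) eNG 45 fbNG zAll [] n21S1 n21L1 = true := by decide +kernel

end Pool.Agent.NG5c
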