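import Pool.Agent.NG5c.NGReduce
import Pool.Agent.NG5c.Ng.D00
import Pool.Agent.NG5c.Ng.D01
import Pool.Agent.NG5c.Ng.D02
import Pool.Agent.NG5c.Ng.D03
import Pool.Agent.NG5c.Ng.D04
import Pool.Agent.NG5c.Ng.D05
import Pool.Agent.NG5c.Ng.D06
import Pool.Agent.NG5c.Ng.D07
import Pool.Agent.NG5c.Ng.D08
import Pool.Agent.NG5c.Ng.D09
import Pool.Agent.NG5c.Ng.D10
import Pool.Agent.NG5c.Ng.D11
import Pool.Agent.NG5c.Ng.D12
import Pool.Agent.NG5c.Ng.D13
import Pool.Agent.NG5c.Ng.D14
import Pool.Agent.NG5c.Ng.D15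
import Pool.Agent.NG5c.Ng.D16
import Pool.Agent.NG5c.Ng.D17
import Pool.Agent.NG5c.Ng.D18
import Pool.Agent.NG5c.Ng.D19
import Pool.Agent.NG5c.Ng.D20
import Pool.Agent.NG5c.Ng.D21
import Pool.Agent.NG5c.Ng.D22
import Pool.Agent.NG5c.Ng.D23
import Pool.Agent.NG5c.Ng.D24

set_option autoImplicit false
set_option maxRecDepth 100000

namespace Pool.Agent.NG5c

open Pool.Agent.NG5

theorem n00 : NGFalse ([0,0,0,1,1], [0,1,2,0,1]) :=
  ngFalse_of _ n00R (by decide +kernel) (fun _ _ _ C => allSat_false (run10_sound C n00t1 allSat_nil) (by decide +kernel))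

theorem n01 : NGFalse ([0,0,0,1,1], [0,1,2,0,3]) :=
  ngFalse_of _ n01R (by decide +kernel) (fun _ _ _ C => allSat_false (run10_sound C n01t1 allSat_nil) (by decide +kernel))

theorem n02 : NGFalse ([0,0,0,1,2], [0,1,2,0,0]) :=
  ngFalse_of _ n02R (by decide +kernel) (fun _ _ _ C => allSat_false (run10_sound C n02t1 allSat_nil) (by decide +kernel))

theorem n03 : NGFalse ([0,0,0,1,2], [0,1,2,0,1]) :=
  ngFalse_of _ n03R (by decide +kernel) (fun _ _ _ C => allSat_false (run10_sound C n03t1 allSat_nil) (by decide +kernel))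

theorem n04 : NGFalse ([0,0,0,1,2], [0,1,2,0,3]) :=
  ngFalse_of _ n04R (by decide +kernel) (fun _ _ _ C => allSat_false (run12_sound C n04t4 (run12_sound C n04t3 (run12_sound C n04t2 (run12_sound C n04t1 allSat_nil)))) (by decide +kernel))

theorem n05 : NGFalse ([0,0,0,1,2], [0,1,2,3,3]) :=
  ngFalse_of _ n05R (by decide +kernel) (fun _ _ _ C => allSat_false (run10_sound C n05t1 allSat_nil) (by decide +kernel))

theorem n06 : NGFalse ([0,0,1,1,2], [0,1,0,1,0]) :=
  ngFalse_of _ n06R (by decide +kernel) (fun _ _ _ C => allSat_false (run10_sound C n06t1 allSat_nil) (by decide +kernel))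

theorem n07 : NGFalse ([0,0,1,1,2], [0,1,0,1,2]) :=
  ngFalse_of _ n07R (by decide +kernel) (fun _ _ _ C => allSat_false (run10_sound C n07t1 allSat_nil) (by decide +kernel))

theorem n08 : NGFalse ([0,0,1,1,2], [0,1,0,2,0]) :=
  ngFalse_of _ n08R (by decide +kernel) (fun _ _ _ C => allSat_false (run10_sound C n08t1 allSat_nil) (by decide +kernel))

theorem n09 : NGFalse ([0,0,1,1,2], [0,1,0,2,1]) :=
  ngFalse_of _ n09R (by decide +kernel) (fun _ _ _ C => allSat_false (run10_sound C n09t1 allSat_nil) (by decide +kernel))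

theorem n10 : NGFalse ([0,0,1,1,2], [0,1,0,2,3]) :=
  ngFalse_of _ n10R (by decide +kernel) (fun _ _ _ C => allSat_false (run11_sound C n10t2 (run11_sound C n10t1 allSat_nil)) (by decide +kernel))

theorem n11 : NGFalse ([0,0,1,1,2], [0,1,2,3,0]) :=
  ngFalse_of _ n11R (by decide +kernel) (fun _ _ _ C => allSat_false (run11_sound C n11t1 allSat_nil) (by decide +kernel))

theorem n12 : NGFalse ([0,0,1,2,3], [0,1,0,0,0]) :=
  ngFalse_of _ n12R (by decide +kernel) (fun _ _ _ C => allSat_false (run10_sound C n12t1 allSat_nil) (by decide +kernel))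

theorem n13 : NGFalse ([0,0,1,2,3], [0,1,0,0,1]) :=
  ngFalse_of _ n13R (by decide +kernel) (fun _ _ _ C => allSat_false (run10_sound C n13t1 allSat_nil) (by decide +kernel))

theorem n14 : NGFalse ([0,0,1,2,3], [0,1,0,0,2]) :=
  ngFalse_of _ n14R (by decide +kernel) (fun _ _ _ C => allSat_false (run10_sound C n14t1 allSat_nil) (by decide +kernel))

theorem n15 : NGFalse ([0,0,1,2,3], [0,1,0,1,2]) :=
  ngFalse_of _ n15R (by decide +kernel) (fun _ _ _ C => allSat_false (run10_sound C n15t1 allSat_nil) (by decide +kernel))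

theorem n16 : NGFalse ([0,0,1,2,3], [0,1,0,2,2]) :=
  ngFalse_of _ n16R (by decide +kernel) (fun _ _ _ C => allSat_false (run10_sound C n16t1 allSat_nil) (by decide +kernel))

theorem n17 : NGFalse ([0,0,1,2,3], [0,1,0,2,3]) :=
  ngFalse_of _ n17R (by decide +kernel) (fun _ _ _ C => allSat_false (run11_sound C n17t2 (run11_sound C n17t1 allSat_nil)) (by decide +kernel))

theorem n18 : NGFalse ([0,0,1,2,3], [0,1,2,2,2]) :=
  ngFalse_of _ n18R (by decide +kernel) (fun _ _ _ C => allSat_false (run10_sound C n18t1 allSat_nil) (by decide +kernel))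

theorem n19 : NGFalse ([0,0,1,2,3], [0,1,2,2,3]) :=
  ngFalse_of _ n19R (by decide +kernel) (fun _ _ _ C => allSat_false (run11_sound C n19t2 (run11_sound C n19t1 allSat_nil)) (by decide +kernel))

theorem n20 : NGFalse ([0,1,2,3,4], [0,0,0,0,1]) :=
  ngFalse_of _ n20R (by decide +kernel) (fun _ _ _ C => allSat_false (run10_sound C n20t1 allSat_nil) (by decide +kernel))

theorem n21 : NGFalse ([0,1,2,3,4], [0,0,0,1,1]) :=
  ngFalse_of _ n21R (by decide +kernel) (fun _ _ _ C => allSat_false (run10_sound C n21t1 allSat_nil) (by decide +kernel))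

theorem n22 : NGFalse ([0,1,2,3,4], [0,0,0,1,2]) :=
  ngFalse_of _ n22R (by decide +kernel) (fun _ _ _ C => allSat_false (run10_sound C n22t1 allSat_nil) (by decide +kernel))

theorem n23 : NGFalse ([0,1,2,3,4], [0,0,1,1,2]) :=
  ngFalse_of _ n23R (by decide +kernel) (fun _ _ _ C => allSat_false (run10_sound C n23t1 allSat_nil) (by decide +kernel))

theorem n24 : NGFalse ([0,1,2,3,4], [0,0,1,2,3]) :=
  ngFalse_of _ n24R (by decide +kernel) (fun _ _ _ C => allSat_false (run10_sound C n24t1 allSat_nil) (by decide +kernel))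

theorem ng_all : ∀ s ∈ ngList, NGFalse s := by
  simp only [ngList, List.forall_mem_cons]
  exact ⟨n00, n01, n02, n03, n04, n05, n06, n07, n08, n09, n10, n11, n12, n13, n14, n15, n16, n17, n18, n19, n20, n21, n22, n23, n24, by simp⟩

theorem nGcore : NGcore := NGcore_of ng_all

end Pool.Agent.NG5c
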